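import Pool.Agent.H21Geo.Final

/-! A group whose geodesic growth is polynomially bounded and lies between `n ^ (11 / 2)` and
`n ^ (35 / 6)`. -/

set_option autoImplicit false

namespace Pool.Agent.Results.MP_b6554e_al.BetweenFiveAndSix

/-- The words over `S ∪ S⁻¹` (lists of elements of this set) of length at most `n` which are
geodesic: no word over `S ∪ S⁻¹` with the same product is shorter. -/
def geodesics {G : Type} [Group G] (S : Finset G) (n : ℕ) : Set (List G) :=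
  {w | w.length ≤ n ∧ (∀ x ∈ w, x ∈ S ∨ x⁻¹ ∈ S) ∧
    ∀ v : List G, (∀ x ∈ v, x ∈ S ∨ x⁻¹ ∈ S) → v.prod = w.prod → w.length ≤ v.length}

/-- The geodesic growth function. -/
noncomputable def growth {G : Type} [Group G] (S : Finset G) (n : ℕ) : ℕ :=
  (geodesics S n).ncard

/-- `f ⪯ g`. -/
def Pre (f g : ℕ → ℕ) : Prop := ∃ C : ℕ, 1 ≤ C ∧ ∀ n : ℕ, f n ≤ C * g (C * n) + C

/-- `f` and `g` are equivalent. -/
def SameGrowth (f g : ℕ → ℕ) : Prop := Pre f g ∧ Pre g f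

open Pool.Agent.H21Geo

private theorem geo_eq (n : ℕ) : geodesics SS n = GW n := by
  unfold geodesics GW IsGeo
  simp only [mem_SS]

private theorem gr_mono {m n : ℕ} (h : m ≤ n) (hn : 1 ≤ n) : growth SS m ≤ growth SS n := by
  unfold growth
  rw [geo_eq, geo_eq]
  exact Set.ncard_le_ncard (fun w hw => ⟨hw.1.trans h, hw.2⟩) (GW_poly hn).1

private theorem gr_pos {n : ℕ} (hn : 1 ≤ n) : 1 ≤ growth SS n := by
  unfold growth
  rw [Nat.one_le_iff_ne_zero, Ne, Set.ncard_eq_zero (by rw [geo_eq]; exact (GW_poly hn).1)]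
  intro h
  have h1 : ([] : List Q) ∈ geodesics SS n :=
    ⟨Nat.zero_le _, fun x hx => absurd hx (List.not_mem_nil), fun v _ _ => Nat.zero_le _⟩
  rw [h] at h1
  exact h1

private theorem lower {n : ℕ} (hn : 1 ≤ n) :
    (n : ℝ) ^ (11 / 2 : ℝ) ≤ 20 ^ 11 * (growth SS n : ℝ) := by
  have hn' : (1 : ℝ) ≤ n := by exact_mod_cast hn
  have hn0 : (0 : ℝ) ≤ n := by linarith
  set s : ℝ := Real.sqrt n with hs
  have hs0 : 0 ≤ s := Real.sqrt_nonneg _
  have hs2 : s ^ 2 = n := Real.sq_sqrt hn0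
  have h1 : (n : ℝ) ^ (11 / 2 : ℝ) = s ^ 11 := by
    rw [hs, Real.sqrt_eq_rpow, ← Real.rpow_natCast, ← Real.rpow_mul hn0]
    norm_num
  rw [h1]
  have hg1 : (1 : ℝ) ≤ growth SS n := by exact_mod_cast gr_pos hn
  rcases lt_or_ge s 20 with h | h
  · calc s ^ 11 ≤ 20 ^ 11 := pow_le_pow_left₀ hs0 h.le 11
      _ ≤ 20 ^ 11 * (growth SS n : ℝ) := le_mul_of_one_le_right (by positivity) hg1
  · set q : ℕ := ⌊s / 10⌋₊ with hq
    have h2 : s / 10 < q + 1 := Nat.lt_floor_add_one _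
    have h3 : (q : ℝ) ≤ s / 10 := Nat.floor_le (by positivity)
    have h4 : s / 20 ≤ q := by linarith
    have hq1 : 1 ≤ q := by
      have : (0 : ℝ) < q := by linarith
      exact_mod_cast this
    have h5 : 100 * q ^ 2 ≤ n := by
      have : (100 : ℝ) * (q : ℝ) ^ 2 ≤ n := by
        rw [← hs2]
        nlinarith
      exact_mod_cast this
    have h6 : q ^ 11 ≤ growth SS n := by
      have h7 := GW_lower hq1
      rw [← geo_eq] at h7
      exact h7.trans (gr_mono h5 hn)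
    have h7 : (q : ℝ) ^ 11 ≤ growth SS n := by exact_mod_cast h6
    calc s ^ 11 = 20 ^ 11 * (s / 20) ^ 11 := by rw [div_pow]; field_simp
      _ ≤ 20 ^ 11 * (q : ℝ) ^ 11 :=
          mul_le_mul_of_nonneg_left (pow_le_pow_left₀ (by positivity) h4 11) (by positivity)
      _ ≤ _ := mul_le_mul_of_nonneg_left h7 (by positivity)

private theorem upper {n : ℕ} (hn : 1 ≤ n) :
    (growth SS n : ℝ) ≤ (CU * 4 * 2 ^ 35 : ℕ) * (n : ℝ) ^ (35 / 6 : ℝ) := by
  have hn' : (1 : ℝ) ≤ n := by exact_mod_cast hn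
  have hn0 : (0 : ℝ) ≤ n := by linarith
  set t : ℝ := (n : ℝ) ^ (1 / 6 : ℝ) with ht
  have ht1 : 1 ≤ t := Real.one_le_rpow hn' (by norm_num)
  have ht6 : t ^ 6 = n := by
    rw [ht, ← Real.rpow_natCast, ← Real.rpow_mul hn0]
    norm_num
  have ht35 : (n : ℝ) ^ (35 / 6 : ℝ) = t ^ 35 := by
    rw [ht, ← Real.rpow_natCast, ← Real.rpow_mul hn0]
    norm_num
  set q : ℕ := ⌈t⌉₊ with hq
  have h1 : t ≤ q := Nat.le_ceil _
  have h2 : (q : ℝ) < t + 1 := Nat.ceil_lt_add_one (by linarith)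
  have h3 : (q : ℝ) ≤ 2 * t := by linarith
  have hq1 : 1 ≤ q := by
    have : (0 : ℝ) < q := by linarith
    exact_mod_cast this
  have h4 : n ≤ q ^ 6 := by
    have : (n : ℝ) ≤ (q : ℝ) ^ 6 := by
      rw [← ht6]
      exact pow_le_pow_left₀ (by linarith) h1 6
    exact_mod_cast this
  have h5 : growth SS n ≤ CU * q ^ 35 * 4 := by
    have h6 := GW_upper hq1
    rw [← geo_eq] at h6
    exact (gr_mono h4 (Nat.one_le_pow _ _ hq1)).trans h6
  have h6 : (growth SS n : ℝ) ≤ CU * (q : ℝ) ^ 35 * 4 := by exact_mod_cast h5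
  rw [ht35]
  calc (growth SS n : ℝ) ≤ CU * (q : ℝ) ^ 35 * 4 := h6
    _ ≤ CU * (2 * t) ^ 35 * 4 := by
        refine mul_le_mul_of_nonneg_right (mul_le_mul_of_nonneg_left ?_ (Nat.cast_nonneg _))
          (by norm_num)
        exact pow_le_pow_left₀ (Nat.cast_nonneg _) h3 35
    _ = _ := by push_cast; ring

private theorem upper' : ∃ K : ℕ, 1 ≤ K ∧ ∀ n : ℕ, 1 ≤ n →
    (growth SS n : ℝ) ≤ K * (n : ℝ) ^ (35 / 6 : ℝ) := by
  refine ⟨CU * 4 * 2 ^ 35, ?_, fun n hn => upper hn⟩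
  have h : 0 < CU * 4 * 2 ^ 35 := by
    unfold CU
    positivity
  exact h

private theorem unbdd {a C : ℝ} (ha : 0 < a) : ∃ n : ℕ, 1 ≤ n ∧ C < (n : ℝ) ^ a := by
  have h1 := (tendsto_rpow_atTop ha).comp tendsto_natCast_atTop_atTop
  obtain ⟨n, h2, h3⟩ := ((h1.eventually (Filter.eventually_gt_atTop C)).and
    (Filter.eventually_ge_atTop 1)).exists
  exact ⟨n, h3, h2⟩

/-- **Main result.** A group `G` with a generating set `S` of three elements whose geodesic growth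
function lies between `n ^ (11 / 2)` and `n ^ (35 / 6)` up to a constant factor. In particular it has
polynomial geodesic growth, not equivalent to `n ^ c` for any natural number `c`. -/
theorem result : ∃ (G : Type) (_ : Group G) (S : Finset G),
    S.card = 3 ∧ Subgroup.closure (S : Set G) = ⊤ ∧
    (∀ n : ℕ, (geodesics S n).Finite) ∧
    (∃ C : ℝ, ∀ n : ℕ, 1 ≤ n → (n : ℝ) ^ (11 / 2 : ℝ) ≤ C * growth S n ∧
      (growth S n : ℝ) ≤ C * (n : ℝ) ^ (35 / 6 : ℝ)) ∧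
    Pre (growth S) (fun n => n ^ 6) ∧
    ∀ c : ℕ, ¬ SameGrowth (growth S) (fun n => n ^ c) := by
  have hfin : ∀ n : ℕ, (geodesics SS n).Finite := by
    intro n
    rw [geo_eq]
    refine (GW_poly (n := n + 1) (by omega)).1.subset ?_
    exact fun w hw => ⟨hw.1.trans (Nat.le_succ n), hw.2⟩
  obtain ⟨K, hK, hup⟩ := upper'
  refine ⟨Q, inferInstance, SS, ?_, closure_SS, hfin,
    ⟨max (20 ^ 11) K, fun n hn => ⟨?_, ?_⟩⟩, ⟨K, hK, ?_⟩, ?_⟩
  · classical
    have h1 : am 1 ≠ tg 1 := fun h => by simpa [am, tg] using congrArg Q.x h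
    have h2 : am 1 ≠ tg 2 := fun h => by simpa [am, tg] using congrArg Q.x h
    have h3 : tg 1 ≠ tg 2 := fun h => by
      have := congrArg Q.k h
      exact absurd this (by decide)
    unfold SS
    rw [Finset.card_insert_of_notMem (by simp [h1, h2]), Finset.card_pair h3]
  · exact (lower hn).trans (mul_le_mul_of_nonneg_right (le_max_left _ _) (Nat.cast_nonneg _))
  · exact (hup n hn).trans (mul_le_mul_of_nonneg_right (le_max_right _ _) (by positivity))
  · intro n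
    rcases Nat.eq_zero_or_pos n with rfl | hn
    · have h1 : growth SS 0 ≤ 1 := by
        unfold growth
        have h2 : geodesics SS 0 ⊆ {[]} := by
          rintro w ⟨hw, -⟩
          rw [Set.mem_singleton_iff, ← List.length_eq_zero_iff]
          omega
        exact (Set.ncard_le_ncard h2 (Set.finite_singleton _)).trans (by simp)
      exact h1.trans (hK.trans (Nat.le_add_left _ _))
    · have h1 := hup n hn
      have hn' : (1 : ℝ) ≤ n := by exact_mod_cast hn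
      have h2 : (n : ℝ) ^ (35 / 6 : ℝ) ≤ (n : ℝ) ^ (6 : ℕ) := by
        rw [← Real.rpow_natCast]
        exact Real.rpow_le_rpow_of_exponent_le hn' (by norm_num)
      have h3 : (growth SS n : ℝ) ≤ (K : ℝ) * ((n ^ 6 : ℕ) : ℝ) := by
        rw [Nat.cast_pow]
        exact h1.trans (mul_le_mul_of_nonneg_left h2 (Nat.cast_nonneg _))
      have h4 : growth SS n ≤ K * n ^ 6 := by exact_mod_cast h3
      have h6 : n ^ 6 ≤ (K * n) ^ 6 :=
        Nat.pow_le_pow_left (Nat.le_mul_of_pos_left _ (by omega)) 6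
      calc growth SS n ≤ K * n ^ 6 := h4
        _ ≤ K * (K * n) ^ 6 := Nat.mul_le_mul_left _ h6
        _ ≤ _ := Nat.le_add_right _ _
  · rintro c ⟨⟨C, hC, h1⟩, D, hD, h2⟩
    have hC' : (1 : ℝ) ≤ C := by exact_mod_cast hC
    have hD' : (1 : ℝ) ≤ D := by exact_mod_cast hD
    rcases Nat.lt_or_ge c 6 with hc | hc
    · obtain ⟨n, hn, h3⟩ := unbdd (a := 1 / 2) (C := 20 ^ 11 * (C * C ^ 5 + C)) (by norm_num)
      have hn' : (1 : ℝ) ≤ n := by exact_mod_cast hn
      have hn0 : (0 : ℝ) < n := by linarith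
      have h4 := lower (n := n) hn
      have h5 : (growth SS n : ℝ) ≤ C * ((C : ℝ) * n) ^ c + C := by exact_mod_cast h1 n
      have h6 : ((C : ℝ) * n) ^ c ≤ (C * n) ^ 5 :=
        pow_le_pow_right₀ (by nlinarith) (by omega)
      have h7 : (growth SS n : ℝ) ≤ (C * C ^ 5 + C) * (n : ℝ) ^ 5 := by
        have h8 : (1 : ℝ) ≤ (n : ℝ) ^ 5 := one_le_pow₀ hn'
        have h9 : (C : ℝ) * ((C : ℝ) * n) ^ c ≤ C * (C * n) ^ 5 :=
          mul_le_mul_of_nonneg_left h6 (by linarith)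
        have h10 : (C : ℝ) ≤ C * (n : ℝ) ^ 5 := le_mul_of_one_le_right (by linarith) h8
        calc (growth SS n : ℝ) ≤ C * ((C : ℝ) * n) ^ c + C := h5
          _ ≤ C * (C * n) ^ 5 + C * (n : ℝ) ^ 5 := add_le_add h9 h10
          _ = _ := by ring
      have h8 : (n : ℝ) ^ (11 / 2 : ℝ) = (n : ℝ) ^ (1 / 2 : ℝ) * (n : ℝ) ^ 5 := by
        rw [← Real.rpow_natCast, ← Real.rpow_add hn0]
        norm_num
      rw [h8] at h4
      have h9 : (n : ℝ) ^ (1 / 2 : ℝ) * (n : ℝ) ^ 5 ≤ (20 ^ 11 * (C * C ^ 5 + C)) * (n : ℝ) ^ 5 := by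
        refine h4.trans ?_
        rw [mul_assoc]
        exact mul_le_mul_of_nonneg_left h7 (by positivity)
      have h10 := le_of_mul_le_mul_right h9 (by positivity)
      linarith
    · obtain ⟨n, hn, h3⟩ := unbdd (a := 1 / 6)
        (C := D * ((K : ℝ) * (D : ℝ) ^ (35 / 6 : ℝ)) + D) (by norm_num)
      have hn' : (1 : ℝ) ≤ n := by exact_mod_cast hn
      have hn0 : (0 : ℝ) < n := by linarith
      have hDn : 1 ≤ D * n := Nat.mul_pos (by omega) (by omega)
      have h4 := hup (D * n) hDn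
      have h5 : (n : ℝ) ^ c ≤ D * (growth SS (D * n) : ℝ) + D := by exact_mod_cast h2 n
      have h6 : (n : ℝ) ^ 6 ≤ (n : ℝ) ^ c := pow_le_pow_right₀ hn' hc
      have h7 : ((D * n : ℕ) : ℝ) ^ (35 / 6 : ℝ) = (D : ℝ) ^ (35 / 6 : ℝ) * (n : ℝ) ^ (35 / 6 : ℝ) := by
        rw [Nat.cast_mul, Real.mul_rpow (by positivity) (by positivity)]
      rw [h7] at h4
      have h8 : (1 : ℝ) ≤ (n : ℝ) ^ (35 / 6 : ℝ) := Real.one_le_rpow hn' (by norm_num)
      have h9 : (n : ℝ) ^ 6 ≤ (D * ((K : ℝ) * (D : ℝ) ^ (35 / 6 : ℝ)) + D) *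
          (n : ℝ) ^ (35 / 6 : ℝ) := by
        calc (n : ℝ) ^ 6 ≤ D * (growth SS (D * n) : ℝ) + D := h6.trans h5
          _ ≤ D * ((K : ℝ) * ((D : ℝ) ^ (35 / 6 : ℝ) * (n : ℝ) ^ (35 / 6 : ℝ))) +
              D * (n : ℝ) ^ (35 / 6 : ℝ) :=
            add_le_add (mul_le_mul_of_nonneg_left h4 (by linarith))
              (le_mul_of_one_le_right (by linarith) h8)
          _ = _ := by ring
      have h10 : (n : ℝ) ^ 6 = (n : ℝ) ^ (1 / 6 : ℝ) * (n : ℝ) ^ (35 / 6 : ℝ) := by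
        rw [← Real.rpow_natCast, ← Real.rpow_add hn0]
        norm_num
      rw [h10] at h9
      have h11 := le_of_mul_le_mul_right h9 (by positivity)
      linarith

end Pool.Agent.Results.MP_b6554e_al.BetweenFiveAndSix
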